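import Mathlib
import Pool.Agent.H297R2.Tuples

/-!
# Bounded-degree algebraic independence of logarithms for almost all tuples of integers

For every degree bound `D`, almost all `k`-tuples of positive integers `(n_1, ..., n_k)` are such
that `log n_1, ..., log n_k` satisfy no nonzero polynomial relation of total degree `≤ D` with
algebraic coefficients; the same holds over any fixed complex numbers `t_1, ..., t_l` which satisfy
no such relation themselves, with a bound which is uniform in `t`.

The proof: Baker's theorem (proved in `Pool.Agent.H297R2.BakerThm`), evaluation determinants on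
the variety of specialisations of the logarithms (`CubeFree`), and multiplicative cubes in dense
sets of integers (`Dense`).
-/

namespace Pool.Agent.Results.MP_60829e_nt.AlmostAllTuples

open Pool.Agent.H297R2

/-- The complex numbers `x i` satisfy no nonzero polynomial relation of total degree at most `D`
with algebraic coefficients. -/
def IndepUpTo (D : ℕ) {σ : Type} (x : σ → ℂ) : Prop :=
  ∀ P : MvPolynomial σ (integralClosure ℚ ℂ), P.totalDegree ≤ D →
    MvPolynomial.aeval x P = 0 → P = 0

theorem indepUpTo_iff (D : ℕ) {σ : Type} (x : σ → ℂ) :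
    IndepUpTo D x ↔ NoRel (algebraicClosure ℚ ℂ) D x := by
  constructor
  · intro h
    have h' : NoRel (integralClosure ℚ ℂ) D x := h
    refine NoRel.transfer
      ({ toFun := fun a => ⟨a.1, a.2⟩
         map_one' := rfl
         map_mul' := fun _ _ => rfl
         map_zero' := rfl
         map_add' := fun _ _ => rfl } : algebraicClosure ℚ ℂ →+* integralClosure ℚ ℂ) ?_ ?_ h'
    · intro a b hab
      exact Subtype.ext (congrArg Subtype.val hab)
    · intro a; rfl
  · intro h
    have h' : NoRel (integralClosure ℚ ℂ) D x := by
      refine NoRel.transfer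
        ({ toFun := fun a => ⟨a.1, a.2⟩
           map_one' := rfl
           map_mul' := fun _ _ => rfl
           map_zero' := rfl
           map_add' := fun _ _ => rfl } : integralClosure ℚ ℂ →+* algebraicClosure ℚ ℂ) ?_ ?_ h
      · intro a b hab
        exact Subtype.ext (congrArg Subtype.val hab)
      · intro a; rfl
    exact h'

open Classical in
/-- **Main result.** -/
theorem result (l k D : ℕ) (ε : ℝ) (hε : 0 < ε) :
    ∃ x₀ : ℕ, ∀ x ≥ x₀, ∀ t : Fin l → ℂ, IndepUpTo D t →
      (((Fintype.piFinset fun _ : Fin k => Finset.Icc 1 x).filter fun n =>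
        ¬ IndepUpTo D (Sum.elim t fun i => (Real.log (n i) : ℂ))).card : ℝ) ≤
      ε * (x : ℝ) ^ k := by
  obtain ⟨x₀, hx₀⟩ := density_tuples k (Fin l) D ε hε
  refine ⟨x₀, fun x hx t ht => ?_⟩
  refine le_trans (le_of_eq ?_) (hx₀ x hx t ((indepUpTo_iff D t).1 ht))
  congr 2

end Pool.Agent.Results.MP_60829e_nt.AlmostAllTuples
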