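import Mathlib
import Pool.Agent.H297R2.Generic

/-!
# Generic combinations of logarithms of algebraic numbers are independent in bounded degree

Let `l_1, ..., l_N` be `ℚ`-linearly independent logarithms of algebraic numbers with
`N ≥ binom (D + k) k`. For all `(k+1) × N` matrices `A` of algebraic numbers (in particular of
integers) outside an explicit hypersurface, the `k + 1` numbers `∑_j A_{ij} l_j` satisfy no nonzero
polynomial relation of total degree `≤ D` with algebraic coefficients.

The proof: by Baker's theorem `1, l_1, ..., l_N` are linearly independent over the algebraic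
numbers, so the variety of specialisations of `(l_1, ..., l_N)` is not contained in a hyperplane,
and hyperplane sections through many points show that its generic projections lie on no
hypersurface of small degree (`exists_next`, `generic_open`).
-/

namespace Pool.Agent.Results.MP_60829e_nt.GenericCombinations

open Pool.Agent.H297R2

/-- **Main result.** -/
theorem result (k D N : ℕ) (hN : (D + k).choose k ≤ N) (l : Fin N → ℂ)
    (halg : ∀ j, IsAlgebraic ℚ (Complex.exp (l j))) (hli : LinearIndependent ℚ l) :
    ∃ Δ : MvPolynomial (Fin (k + 1) × Fin N) (algebraicClosure ℚ ℂ), Δ ≠ 0 ∧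
      Δ.totalDegree ≤ D * (D + (k + 1)).choose (k + 1) ∧
      ∀ A : Fin (k + 1) × Fin N → algebraicClosure ℚ ℂ, MvPolynomial.eval A Δ ≠ 0 →
        ∀ P : MvPolynomial (Fin (k + 1)) (algebraicClosure ℚ ℂ), P ≠ 0 → P.totalDegree ≤ D →
          MvPolynomial.aeval (fun i => ∑ j, (A (i, j) : ℂ) * l j) P ≠ 0 := by
  obtain ⟨Δ, h1, h2, h3⟩ := generic_combinations k D N hN l halg hli
  exact ⟨Δ, h1, h2, fun A hA P hP0 hPD hP => hP0 (h3 A hA P hPD hP)⟩

end Pool.Agent.Results.MP_60829e_nt.GenericCombinations
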