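import Mathlib
import Pool.Agent.H297R2.LPM.Quad

/-!
# Quadratic relations between `log 2` and `i π`

The logarithms `log 2` of `2` and `i π` of `-1` satisfy no nonzero relation `f(log 2, i π) = 0`, where
`f(X, Y)` is a polynomial with integer coefficients of total degree `≤ 2` without the term `X²`, and
`|f(log 2, i π)| ≥ c H(f)^{-223}`. In particular `1, log 2, π²` are linearly independent over `ℚ`.
-/

namespace Pool.Agent.Results.MP_60829e_nt.LogTwoPiSquared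

/-- **Main result.** -/
theorem result : ∃ c : ℝ, 0 < c ∧ ∀ a b d e g : ℤ, (a ≠ 0 ∨ b ≠ 0 ∨ d ≠ 0 ∨ e ≠ 0 ∨ g ≠ 0) →
    ∀ H : ℝ, |(a : ℝ)| ≤ H → |(b : ℝ)| ≤ H → |(d : ℝ)| ≤ H → |(e : ℝ)| ≤ H → |(g : ℝ)| ≤ H →
    c / H ^ 223 ≤ ‖(a : ℂ) + b * (Real.log 2 : ℂ) + d * (Real.pi * Complex.I) +
      e * ((Real.log 2 : ℂ) * (Real.pi * Complex.I)) + g * (Real.pi * Complex.I) ^ 2‖ :=
  Pool.Agent.LP.MS.quad_measure

end Pool.Agent.Results.MP_60829e_nt.LogTwoPiSquared
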