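import Mathlib
import Pool.Agent.H297R2.Pairs

/-!
# Almost all pairs: `log n` is not algebraic of bounded degree over `ℚ̄(log m)`

For every `D`, almost all pairs of positive integers `(m, n)` are such that there is no nonzero
polynomial `P(X, Y)` with algebraic coefficients, of degree `≤ D` in `X` or of degree `≤ D` in `Y`
(and of arbitrary degree in the other variable), with `P(log m, log n) = 0`.

The proof: Baker's theorem (`InBakerThm`), the bounded total degree case (`Density`), simultaneous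
minimality of both partial degrees of an irreducible relation (`BiDeg.simul`) and subadditivity of
degrees of functions on a curve (`BiDeg.subst_deg`, `ThmJ.degree_bound`), and an averaging argument
over prime dilations (`Dense.one_step`, `ThmJ`, `Pairs`).
-/

namespace Pool.Agent.Results.MP_60829e_nt.OneSidedPairs

open Pool.Agent.H297R2 Polynomial Bivariate Finset

/-- Change of the coefficient field. -/
theorem degLe_of_integralClosure {d : ℕ} {x y : ℂ} (P : (integralClosure ℚ ℂ)[X][Y]) (hP : P ≠ 0)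
    (hd : P.natDegree ≤ d) (h : aevalAeval x y P = 0) : DegLe (algebraicClosure ℚ ℂ) d x y := by
  set f : integralClosure ℚ ℂ →+* algebraicClosure ℚ ℂ :=
    { toFun := fun a => ⟨a.1, a.2⟩
      map_one' := rfl
      map_mul' := fun _ _ => rfl
      map_zero' := rfl
      map_add' := fun _ _ => rfl } with hf
  have hfinj : Function.Injective f := fun a b hab => Subtype.ext (congrArg Subtype.val hab)
  have hfalg : ∀ a, algebraMap (algebraicClosure ℚ ℂ) ℂ (f a) = algebraMap (integralClosure ℚ ℂ) ℂ a :=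
    fun a => rfl
  have hmapinj : Function.Injective (mapRingHom f) := Polynomial.map_injective f hfinj
  refine ⟨P.map (mapRingHom f), ?_, natDegree_map_le.trans hd, ?_⟩
  · rwa [Ne, Polynomial.map_eq_zero_iff hmapinj]
  · rw [← h]
    clear h hd hP
    induction P using Polynomial.induction_on' with
    | add p q hp hq => rw [Polynomial.map_add, map_add, map_add, hp, hq]
    | monomial n a =>
      rw [Polynomial.map_monomial, ← C_mul_X_pow_eq_monomial, ← C_mul_X_pow_eq_monomial, map_mul,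
        map_mul, map_pow, map_pow, aevalAeval_Y, aevalAeval_Y, aevalAeval_C, aevalAeval_C]
      congr 1
      rw [coe_mapRingHom, aeval_def, aeval_def, eval₂_map]
      congr 1

open Classical in
/-- **Main result.** -/
theorem result (D : ℕ) (ε : ℝ) (hε : 0 < ε) :
    ∃ x₀ : ℕ, ∀ x ≥ x₀,
      (((Finset.Icc 1 x ×ˢ Finset.Icc 1 x).filter fun a : ℕ × ℕ =>
        ∃ P : (integralClosure ℚ ℂ)[X][Y], P ≠ 0 ∧
          (P.natDegree ≤ D ∨ (swap P).natDegree ≤ D) ∧
          aevalAeval (Real.log a.1 : ℂ) (Real.log a.2 : ℂ) P = 0).card : ℝ) ≤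
      ε * (x : ℝ) ^ 2 := by
  obtain ⟨x₀, hx₀⟩ := pairs_one_side D (ε / 2) (by positivity)
  refine ⟨x₀, fun x hx => ?_⟩
  set S : Finset (ℕ × ℕ) := Ioc 0 x ×ˢ Ioc 0 x with hS
  set B₁ := S.filter (fun a : ℕ × ℕ =>
    DegLe (algebraicClosure ℚ ℂ) D (Real.log a.2 : ℂ) (Real.log a.1 : ℂ)) with hB₁
  set B₂ := S.filter (fun a : ℕ × ℕ =>
    DegLe (algebraicClosure ℚ ℂ) D (Real.log a.1 : ℂ) (Real.log a.2 : ℂ)) with hB₂
  have h1 : (B₁.card : ℝ) ≤ ε / 2 * (x : ℝ) ^ 2 :=
    hx₀ x hx B₁ (Finset.filter_subset _ _) (fun a ha => (Finset.mem_filter.1 ha).2)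
  have h2 : (B₂.card : ℝ) ≤ ε / 2 * (x : ℝ) ^ 2 := by
    have h3 : B₂.card = (B₂.image Prod.swap).card :=
      (Finset.card_image_of_injective _ Prod.swap_injective).symm
    rw [h3]
    apply hx₀ x hx
    · intro a ha
      rw [Finset.mem_image] at ha
      obtain ⟨b, hb, rfl⟩ := ha
      rw [hB₂, Finset.mem_filter, hS, Finset.mem_product] at hb
      rw [Finset.mem_product]
      exact ⟨hb.1.2, hb.1.1⟩
    · intro a ha
      rw [Finset.mem_image] at ha
      obtain ⟨b, hb, rfl⟩ := ha
      exact (Finset.mem_filter.1 hb).2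
  have hsub : ((Finset.Icc 1 x ×ˢ Finset.Icc 1 x).filter fun a : ℕ × ℕ =>
        ∃ P : (integralClosure ℚ ℂ)[X][Y], P ≠ 0 ∧
          (P.natDegree ≤ D ∨ (swap P).natDegree ≤ D) ∧
          aevalAeval (Real.log a.1 : ℂ) (Real.log a.2 : ℂ) P = 0) ⊆ B₁ ∪ B₂ := by
    intro a ha
    rw [Finset.mem_filter, Finset.mem_product, Finset.mem_Icc, Finset.mem_Icc] at ha
    obtain ⟨⟨⟨ha1, ha2⟩, ha3, ha4⟩, P, hP0, hPd, hP⟩ := ha
    have haS : a ∈ S := by
      rw [hS, Finset.mem_product, Finset.mem_Ioc, Finset.mem_Ioc]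
      omega
    rw [Finset.mem_union, hB₁, hB₂, Finset.mem_filter, Finset.mem_filter]
    rcases hPd with hPd | hPd
    · exact Or.inr ⟨haS, degLe_of_integralClosure P hP0 hPd hP⟩
    · refine Or.inl ⟨haS, degLe_of_integralClosure (swap P) ?_ hPd (by rw [aevalAeval_swap]; exact hP)⟩
      intro h0
      apply hP0
      rw [← swap_swap_apply P, h0, map_zero]
  calc _ ≤ ((B₁ ∪ B₂).card : ℝ) := by exact_mod_cast Finset.card_le_card hsub
    _ ≤ (B₁.card : ℝ) + B₂.card := by exact_mod_cast Finset.card_union_le _ _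
    _ ≤ ε / 2 * (x : ℝ) ^ 2 + ε / 2 * (x : ℝ) ^ 2 := add_le_add h1 h2
    _ = ε * (x : ℝ) ^ 2 := by ring

end Pool.Agent.Results.MP_60829e_nt.OneSidedPairs
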